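import Pool.Agent.L5helper88.NS.Final
import Pool.Agent.L5helper67.NC.CubicAll

/-!
# Lower bounds for the permanent in terms of nested systems of linear equations

A computation in `r` rounds solves in each round a system of linear equations with nonzero
determinant. The coefficients are linear combinations of the variables, `1` and the results of the
earlier rounds, the right sides are quadratic expressions in them. If the `m × m` permanent over a
field of characteristic zero is a linear combination of the results, then the total number of
unknowns is at least `r m ^ 2 ((m / 2 ^ 14) ^ (1 / r) / e - 1) / 2 ^ 21` and at least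
`m ^ 2 (log₂ m - 14) / 2 ^ 21`. Over `ℂ` this holds for approximate computations as well.

With one round this contains weakly skew circuits and determinants computed by them; since every
multiplication and every division is a system with one unknown, it contains all arithmetic
circuits.
-/

set_option autoImplicit false

open Finset MvPolynomial

namespace Pool.Agent.Results.MP_35c45d_lc.NestedSystems

open Pool.Agent.L5helper88.Model

/-- Three lower bounds for the sizes `s` of nested systems: the first one contains a positive
integer parameter `ρ` for each system (`t` is a list of pairs `(size, ρ)`), the second one only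
depends on the total size, the third one on the total size and the number of systems. -/
def Large (m : ℕ) (s : List ℕ) : Prop :=
  (∀ t : List (ℕ × ℕ), (∀ a ∈ t, 1 ≤ a.2) → t.map Prod.fst = s →
    ((m : ℝ) / 2 ^ 14) ^ (m ^ 2) ≤
      (t.map fun a => (a.2 : ℝ) ^ (m ^ 2) * (1 + 1 / (a.2 : ℝ)) ^ (2 ^ 21 * a.1)).prod) ∧
  (m : ℝ) ^ 2 * (Real.logb 2 m - 14) / 2 ^ 21 ≤ (s.sum : ℝ) ∧
  (s ≠ [] → (s.length : ℝ) * (m : ℝ) ^ 2 *
    (((m : ℝ) / 2 ^ 14) ^ (1 / (s.length : ℝ)) / Real.exp 1 - 1) / 2 ^ 21 ≤ (s.sum : ℝ))

/-- **Lower bounds for the permanent in terms of nested systems of linear equations.** Let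
`m ≥ 1`. If the `m × m` permanent over a field of characteristic zero is computed by nested systems
of linear equations of the sizes `s`, or if over `ℂ` it is approximated by polynomials which are
computed by nested systems of these sizes, then the total size is at least
`m ^ 2 (log₂ m - 14) / 2 ^ 21` and, if there are `r ≥ 1` systems, at least
`r m ^ 2 ((m / 2 ^ 14) ^ (1 / r) / e - 1) / 2 ^ 21`. -/
theorem result (m : ℕ) (hm : 1 ≤ m) :
    (∀ (K : Type) [Field K] [CharZero K] (s : List ℕ), Solved (perm K m) s → Large m s) ∧
      ∀ s : List ℕ, SolvedApproximately (perm ℂ m) s → Large m s := by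
  have key : ∀ s : List ℕ, SolvedApproximately (perm ℂ m) s → Large m s := by
    intro s hs
    have h1 := Pool.Agent.L5helper88.NS.solved_bound
      (L5helper67.NC.permSize3 (L5helper67.NC.Net.multi L5helper34.NC.gateStmt)) m hm s hs
    exact ⟨h1, Pool.Agent.L5helper88.NS.nested_log m hm s h1,
      fun hne => Pool.Agent.L5helper88.NS.nested_rounds m hm s hne h1⟩
  exact ⟨fun K _ _ s hs => key s
    (Pool.Agent.L5helper88.NS.approximately_of_solved (solved_complex hs)), key⟩

end Pool.Agent.Results.MP_35c45d_lc.NestedSystems
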