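import Mathlib
import Pool.Agent.L5helper59.CC.Bounds

/-!
# The comparator circuit value problem: branching programs which test real formulas

The input is a comparator circuit with `m` comparators on `m + 3` wires together with the initial bits
of the wires: its items are the `m` comparators (pairs of wires; the minimum of the two bits goes to
the first wire, the maximum to the second) and the `m + 3` bits. The question is the final bit of the
wire `0`.

A real formula (`Fml`) is built from real constants, arbitrary real functions of one item, and
arbitrary real functions of `w` items (at most `(m + 3) ^ 2` values of each item are distinguished,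
that is, all of them), by sums, products, sign tests `pos`, and gates `sym` of any fan-in whose value
is an arbitrary real function of the number of positive inputs. In a branching program (`Program`)
every inner node tests whether a real formula is positive; its size is the number of inner nodes plus
the sizes of the formulas (leaves which are not constants, and wires into gates `sym`).

We show that random branching programs of size at most `s` with error probability at most `1 / 3`
need `m ^ 2 ≤ 10000 w ^ 2 s`.

Proof. Every comparator of the first half can ask for `m log₂ m / 6` bits which are encoded in the
others: a word of `K = log₂ m - O(1)` bits is the target of a comparator with the source `a_i`; a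
comparator which joins the marker of `b` with `a_i` asks whether the word `i` is at least `b`, which is
tested by `2 ^ (K + 1)` comparators at the end. Asked for the next bit in this way (binary search), the
entries of the circuit have many subfunctions, whereas `r` leaves give only `2 ^ O (r log m)`
(`Pool.Agent.Y638.RF`). In the library (`Pool.Agent.Y638.RF.Comp`) every comparator could ask for
`m / 2` bits only, which gives `m ^ 2 / log m`.
-/

set_option autoImplicit false

namespace Pool.Agent.Results.MP_9a4607_lc.RealPrograms

open Pool.Agent.TH697.Form (IsProb)
open Pool.Agent.TH697.Row (ApproximatesOn)
open Pool.Agent.TH457.Ary.Comp (Item value)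
open Pool.Agent.Y638.RF (Program)
open Pool.Agent.L5helper59.CC (Proper)

theorem result : ∀ m w : ℕ, 4096 ≤ m → 1 ≤ w →
    ∀ (Ω : Type) [Fintype Ω] (μ : Ω → ℝ), IsProb μ →
      ∀ (s : ℕ) (B : Ω → Program (Fin m ⊕ Fin (m + 3)) (Item m (m + 3)) w ((m + 3) ^ 2) s),
        ApproximatesOn μ (fun ω => (B ω).eval) Proper value →
        (m : ℝ) ^ 2 ≤ 10000 * w ^ 2 * s :=
  fun _ _ hm hw _ _ μ hμ s B hB => Pool.Agent.L5helper59.CC.program_bound hm hw μ hμ s B hB

end Pool.Agent.Results.MP_9a4607_lc.RealPrograms
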