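import Mathlib
import Pool.Agent.L5helper59.CG.Sparse

/-!
# Formulas with comparator circuits and determinants: regularity of sparse matrices

The input is the list of `4 n` positions of ones of an `n × n` matrix over a field `K` (a position may
be listed several times, then the ones are added). The question is whether the matrix is regular. For
finite fields this problem is in `NC`; it is not known to be in `CC`.

A formula (`Fml`) is built from real constants, arbitrary real functions of one item of the list, and
arbitrary real functions of `w` items, by the gates

* `pos`: is the value positive? (`1` or `0`),
* `sym`: any fan-in, any real function of the number of positive inputs,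
* `det`: the determinant of a real matrix of any order whose entries are formulas (sums and products
  are determinants of order two),
* `reg`: is the matrix over an arbitrary field, of any order, whose entry `(a, b)` is `c' a b` or
  `c a b`, according to whether the formula `(a, b)` is positive or not, regular? (`1` or `0`),
* `cc`: a comparator circuit with any number of wires, any list of comparators and negations and an
  output wire, where the wire `j` carries at first the bit which tells whether the formula `j` is
  positive (`1` or `0`).

The size is the number of the leaves which are not constants, plus the number of wires which lead to
gates `sym`; constants, comparators, negations and the orders of the matrices are free. Comparator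
circuits in the usual sense (each wire carries at first a constant or a literal) are formulas with one
gate `cc`, and their size is the number of the wires which carry literals.

We show that random formulas of size at most `s` with error probability at most `1 / 3` need
`n ^ 3 ≤ 1.2 * 10 ^ 7 * w ^ 3 * s ^ 2`, that is, size of order `n ^ (3 / 2)`, for every field `K`.

Proof. 1. Comparator circuits: if the bits on all wires but `r` are fixed, a comparator circuit has at
most `(2 r + 2) ^ (4 r ^ 2 + 1)` functions of the remaining bits (`Pool.Agent.L5helper59.CG.cc_count`):
a comparator which meets a constant or a comparable function moves the functions only, and each other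
comparator (with its dual) makes two more pairs of functions or complements of functions comparable,
so at most `2 r ^ 2` comparators matter. This is combined with the Schur complement count of the
library for determinants. 2. Coding: the words `u_t` are entries `(a_t, u_t)`, fixed entries lead from
`u` to the bits `k` with `u k = 1`; an entry which closes the cycle from the bit `k` to `a_t` makes the
matrix singular iff bit `k` of the word `t` is one. So half of the items can ask for `n log₂ n / 5` bits.
-/

set_option autoImplicit false

namespace Pool.Agent.Results.MP_9a4607_lc.SparseRegularity

open Pool.Agent.TH697.Form (IsProb)
open Pool.Agent.TH697.Row (ApproximatesOn)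
open Pool.Agent.L5helper59.CG (Fml)
open Pool.Agent.L5helper59.CG.Sparse (regular)

theorem result : ∀ (K : Type) [Field K] (n w : ℕ), 4096 ≤ n → 1 ≤ w →
    ∀ (Ω : Type) [Fintype Ω] (μ : Ω → ℝ), IsProb μ →
      ∀ (s : ℕ) (F : Ω → Fml (Fin (4 * n)) (fun _ => Fin n × Fin n) w (n ^ 2)),
        (∀ ω, (F ω).size ≤ s) →
        ApproximatesOn μ (fun ω => (F ω).accepts) (fun _ => True) (regular K) →
        (n : ℝ) ^ 3 ≤ 12000000 * w ^ 3 * s ^ 2 :=
  fun K _ _ _ hn hw _ _ μ hμ s F hs hF =>
    Pool.Agent.L5helper59.CG.Sparse.regular_bound K hn hw μ hμ s F hs hF

end Pool.Agent.Results.MP_9a4607_lc.SparseRegularity
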