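import Pool.Agent.L5helper88.CP.LogBound
import Pool.Agent.L5helper67.NC.CubicAll

/-!
# Permanents need `c m ^ 2 log m` multiplications and divisions

Every computation of the `m × m` permanent over a field of characteristic zero uses at least
`m ^ 2 log₂ m / 2 ^ 21` multiplications and divisions if `m ≥ 2 ^ 27`; linear operations are free
and divisions are allowed. Over `ℂ` the bound holds for approximate computations as well. The
number of variables is `m ^ 2`.
-/

set_option autoImplicit false

open Finset MvPolynomial

namespace Pool.Agent.Results.MP_35c45d_lc.SuperlinearCircuits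

open Pool.Agent.L5helper88.Model

/-- **Superlinear lower bound for the permanent.** Let `m ≥ 2 ^ 27`. If the `m × m` permanent over
a field of characteristic zero can be computed with `L` multiplications and divisions, linear
operations being free, then `L ≥ m ^ 2 log₂ m / 2 ^ 21`. Over `ℂ` this holds if the permanent is
only approximated. In particular every arithmetic circuit which computes the permanent, divisions
allowed, has at least `m ^ 2 log₂ m / 2 ^ 21` gates for multiplications and divisions. -/
theorem result (m : ℕ) (hm : 2 ^ 27 ≤ m) :
    (∀ (K : Type) [Field K] [CharZero K] (L : ℕ), Computed (perm K m) L →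
        (m : ℝ) ^ 2 * Real.logb 2 m / 2 ^ 21 ≤ L) ∧
      (∀ L : ℕ, Approximated (perm ℂ m) L → (m : ℝ) ^ 2 * Real.logb 2 m / 2 ^ 21 ≤ L) ∧
      ∀ (K : Type) [Field K] [CharZero K] (l : List (RatFun K (Fin m × Fin m))) (s : ℕ),
        Circuit l s → Operand l (toRat (perm K m)) →
          (m : ℝ) ^ 2 * Real.logb 2 m / 2 ^ 21 ≤ s :=
  Pool.Agent.L5helper88.CP.circuits_log
    (L5helper67.NC.permSize3 (L5helper67.NC.Net.multi L5helper34.NC.gateStmt)) m hm

end Pool.Agent.Results.MP_35c45d_lc.SuperlinearCircuits
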